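import Pool.Agent.H466.HD.SA

/-!
Second moment of the mollifier times zeta off the line, from `S_MOM`.
-/

set_option autoImplicit false

namespace Pool.Agent.H728.HD

open Complex MeasureTheory Set Filter Topology
open Pool.Agent.H477.E (MT bc Nn)
open Pool.Agent.H466.HD

theorem gauss_mass {w0 r : ℝ} (hw : 0 < w0) (hr : 0 ≤ r) :
    ∫ x in (-r)..r, (1 / (w0 * Real.sqrt (2 * Real.pi)) * Real.exp (-x ^ 2 / (2 * w0 ^ 2))) ≤ 1 := by
  have hb : 0 < 1 / (2 * w0 ^ 2) := by positivity
  have hc : 0 < w0 * Real.sqrt (2 * Real.pi) := by positivity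
  have e : ∀ x : ℝ, 1 / (w0 * Real.sqrt (2 * Real.pi)) * Real.exp (-x ^ 2 / (2 * w0 ^ 2)) =
      1 / (w0 * Real.sqrt (2 * Real.pi)) * Real.exp (-(1 / (2 * w0 ^ 2)) * x ^ 2) := by
    intro x
    congr 2
    ring
  have hint : Integrable fun x : ℝ =>
      1 / (w0 * Real.sqrt (2 * Real.pi)) * Real.exp (-(1 / (2 * w0 ^ 2)) * x ^ 2) :=
    (integrable_exp_neg_mul_sq hb).const_mul _
  simp_rw [e]
  rw [intervalIntegral.integral_of_le (by linarith)]
  refine (setIntegral_le_integral hint (Filter.Eventually.of_forall fun x => by positivity)).trans ?_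
  rw [integral_const_mul, integral_gaussian]
  have h2 : Real.sqrt (Real.pi / (1 / (2 * w0 ^ 2))) = w0 * Real.sqrt (2 * Real.pi) := by
    have : Real.pi / (1 / (2 * w0 ^ 2)) = w0 ^ 2 * (2 * Real.pi) := by
      field_simp
    rw [this, Real.sqrt_mul (by positivity), Real.sqrt_sq hw.le]
  rw [h2, one_div, inv_mul_cancel₀ hc.ne']

theorem inner_eq {m : ℝ → ℝ} {t r w0 : ℝ} (hr : 0 ≤ r) :
    ∫ y in Icc (t - r) (t + r), m y * Real.exp (-(y - t) ^ 2 / (2 * w0 ^ 2)) =
      ∫ x in (-r)..r, m (t + x) * Real.exp (-x ^ 2 / (2 * w0 ^ 2)) := by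
  rw [integral_Icc_eq_integral_Ioc, ← intervalIntegral.integral_of_le (by linarith)]
  have h := intervalIntegral.integral_comp_add_left (a := -r) (b := r)
    (fun y => m y * Real.exp (-(y - t) ^ 2 / (2 * w0 ^ 2))) t
  rw [← sub_eq_add_neg] at h
  rw [← h]
  refine intervalIntegral.integral_congr fun x _ => ?_
  simp only [add_sub_cancel_left]

theorem core {f m : ℝ → ℝ} {A B r w0 K : ℝ} (hAB : A ≤ B) (hr : 0 ≤ r) (hw : 0 < w0)
    (hf : ContinuousOn f (Icc A B)) (hm : Continuous m) (hK : 0 ≤ K)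
    (h : ∀ x, |x| ≤ r → ∫ t in A..B, f t * m (t + x) ≤ K) :
    ∫ t in A..B, f t * (1 / (w0 * Real.sqrt (2 * Real.pi)) *
      ∫ y in Icc (t - r) (t + r), m y * Real.exp (-(y - t) ^ 2 / (2 * w0 ^ 2))) ≤ K := by
  set c : ℝ := 1 / (w0 * Real.sqrt (2 * Real.pi)) with hc
  have hc0 : 0 ≤ c := by positivity
  have hrr : -r ≤ r := by linarith
  have hw2 : (2 * w0 ^ 2) ≠ 0 := by positivity
  have hcont : Continuous fun x : ℝ => c * Real.exp (-x ^ 2 / (2 * w0 ^ 2)) := by
    fun_prop
  have e1 : ∫ t in A..B, f t * (c *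
      ∫ y in Icc (t - r) (t + r), m y * Real.exp (-(y - t) ^ 2 / (2 * w0 ^ 2))) =
      ∫ t in A..B, ∫ x in (-r)..r, (c * Real.exp (-x ^ 2 / (2 * w0 ^ 2))) * (f t * m (t + x)) := by
    refine intervalIntegral.integral_congr fun t _ => ?_
    show f t * (c * ∫ y in Icc (t - r) (t + r), m y * Real.exp (-(y - t) ^ 2 / (2 * w0 ^ 2))) = _
    rw [inner_eq hr, ← intervalIntegral.integral_const_mul, ← intervalIntegral.integral_const_mul]
    refine intervalIntegral.integral_congr fun x _ => ?_
    ring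
  rw [e1, intervalIntegral_intervalIntegral_swap]
  · have hfin : ∫ x in (-r)..r, (c * Real.exp (-x ^ 2 / (2 * w0 ^ 2))) * K ≤ K := by
      calc ∫ x in (-r)..r, (c * Real.exp (-x ^ 2 / (2 * w0 ^ 2))) * K
          = K * ∫ x in (-r)..r, (c * Real.exp (-x ^ 2 / (2 * w0 ^ 2))) := by
            rw [← intervalIntegral.integral_const_mul]
            refine intervalIntegral.integral_congr fun x _ => ?_
            ring
        _ ≤ K * 1 := mul_le_mul_of_nonneg_left (gauss_mass hw hr) hK
        _ = K := mul_one K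
    have e2 : ∫ x in (-r)..r, ∫ t in A..B, (c * Real.exp (-x ^ 2 / (2 * w0 ^ 2))) *
        (f t * m (t + x)) = ∫ x in (-r)..r, (c * Real.exp (-x ^ 2 / (2 * w0 ^ 2))) *
            ∫ t in A..B, (f t * m (t + x)) := by
      refine intervalIntegral.integral_congr fun x _ => ?_
      exact intervalIntegral.integral_const_mul _ _
    rw [e2]
    by_cases hI : IntervalIntegrable (fun x => (c * Real.exp (-x ^ 2 / (2 * w0 ^ 2))) *
        ∫ t in A..B, (f t * m (t + x))) volume (-r) r
    · refine (intervalIntegral.integral_mono_on hrr hI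
        ((hcont.mul continuous_const).intervalIntegrable _ _) ?_).trans hfin
      intro x hx
      exact mul_le_mul_of_nonneg_left (h x (abs_le.2 ⟨hx.1, hx.2⟩)) (by positivity)
    · rw [intervalIntegral.integral_undef hI]
      exact hK
  · have h1 : ContinuousOn (Function.uncurry fun t x =>
        (c * Real.exp (-x ^ 2 / (2 * w0 ^ 2))) * (f t * m (t + x))) (Icc A B ×ˢ Icc (-r) r) := by
      refine ContinuousOn.mul (hcont.comp continuous_snd).continuousOn (ContinuousOn.mul ?_ ?_)
      · exact hf.comp continuous_fst.continuousOn fun p hp => hp.1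
      · exact (hm.comp (continuous_fst.add continuous_snd)).continuousOn
    refine (h1.integrableOn_compact (isCompact_Icc.prod isCompact_Icc)).mono_set ?_
    rw [uIoc_of_le hAB, uIoc_of_le hrr]
    exact prod_mono Ioc_subset_Icc_self Ioc_subset_Icc_self

theorem MT_cont (θ T : ℝ) : Continuous fun y : ℝ => ‖Mt θ T y‖ ^ 2 := by
  unfold Mt MT Pool.Agent.H448R2.GC.fs
  refine (Continuous.norm ?_).pow 2
  refine continuous_finsetSum _ fun n hn => ?_
  have hn0 : (n : ℂ) ≠ 0 := by
    have := (Finset.mem_Icc.1 hn).1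
    exact_mod_cast (by omega : n ≠ 0)
  refine continuous_const.mul ?_
  refine Continuous.const_cpow (by fun_prop) (Or.inl hn0)

theorem nc (h : Pool.Agent.H477.E.S_MOM) : S_NC := by
  obtain ⟨θ0, hθ0, h⟩ := h
  refine ⟨θ0, hθ0, fun θ h0 h1 => ?_⟩
  obtain ⟨C, hC, h⟩ := h θ h0 h1
  obtain ⟨T1, hT1⟩ := eventually_atTop.1 h
  refine ⟨C, max T1 10, hC, le_max_right _ _, fun T a r w0 hT ha0 ha hr0 hr hw => ?_⟩
  have hT10 : 10 ≤ T := (le_max_right _ _).trans hT
  have hT0 : 0 < T := by linarith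
  have hL : 1 ≤ Real.log T := by
    rw [Real.le_log_iff_exp_le hT0]
    have := Real.exp_one_lt_d9
    linarith
  have hL0 : 0 < Real.log T := by linarith
  have hTL : T / (8 * Real.log T) ≤ T / (2 * Real.log T) :=
    div_le_div_of_nonneg_left hT0.le (by positivity) (by linarith)
  have hTL0 : 0 < T / (8 * Real.log T) := by positivity
  have hTL2 : T / (2 * Real.log T) ≤ T / 2 :=
    div_le_div_of_nonneg_left hT0.le (by positivity) (by linarith)
  have hzc : ContinuousOn (fun t : ℝ => ‖riemannZeta (1 / 2 + a + (t : ℂ) * I)‖ ^ 2)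
      (Icc (T - T / (2 * Real.log T)) (T + T / (2 * Real.log T))) := by
    intro t ht
    have ht0 : 0 < t := by
      have := ht.1
      linarith
    have h2 : (1 / 2 + (a : ℂ) + (t : ℂ) * I) ≠ 1 := by
      intro e
      have := congrArg Complex.im e
      simp at this
      linarith
    have h3 : ContinuousAt (fun t : ℝ => riemannZeta (1 / 2 + a + (t : ℂ) * I)) t := by
      refine ContinuousAt.comp (f := fun t : ℝ => (1 / 2 + (a : ℂ) + (t : ℂ) * I))
        (g := riemannZeta) ?_ ?_
      · exact (differentiableAt_riemannZeta h2).continuousAt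
      · exact Continuous.continuousAt (by fun_prop)
    exact (h3.norm.pow 2).continuousWithinAt
  have hmax : max a 0 = a := max_eq_left ha0
  have hmax2 : max (-a) 0 = 0 := max_eq_right (by linarith)
  refine core (by linarith) hr0 hw (hzc.mono (Icc_subset_Icc (by linarith) (by linarith)))
    (MT_cont θ T) (by positivity) ?_
  intro x hx
  have hx1 : |(-x)| ≤ 1 := by rw [abs_neg]; linarith
  have key := hT1 T ((le_max_left _ _).trans hT) a 0 (-x) (by linarith) (by linarith) le_rfl
    (by norm_num) hx1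
  have e1 : ∀ y : ℝ, MT θ T (1 / 2 + ((0 : ℝ) : ℂ) + ((y - -x : ℝ) : ℂ) * I) = Mt θ T (y + x) := by
    intro y
    unfold Mt
    rw [sub_neg_eq_add, ofReal_zero, add_zero]
  simp only [e1, sub_zero, abs_neg, hmax, hmax2, mul_zero, add_zero] at key
  have hmono : ∫ t in (T - T / (8 * Real.log T))..(T + T / (8 * Real.log T)),
      ‖riemannZeta (1 / 2 + a + (t : ℂ) * I)‖ ^ 2 * ‖Mt θ T (t + x)‖ ^ 2 ≤
      ∫ t in (T - T / (2 * Real.log T))..(T + T / (2 * Real.log T)),
      ‖riemannZeta (1 / 2 + a + (t : ℂ) * I)‖ ^ 2 * ‖Mt θ T (t + x)‖ ^ 2 := by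
    refine intervalIntegral.integral_mono_interval (by linarith) (by linarith) (by linarith)
      (Filter.Eventually.of_forall fun t => by positivity) ?_
    apply ContinuousOn.intervalIntegrable
    rw [uIcc_of_le (by linarith)]
    exact hzc.mul ((MT_cont θ T).comp (by fun_prop : Continuous fun t : ℝ => t + x)).continuousOn
  refine (hmono.trans key).trans ?_
  have hax : |a| + |x| ≤ a + r := by
    rw [abs_of_nonneg ha0]
    linarith
  have h5 : (1 + (|a| + |x|) * Real.log T) ^ 4 ≤ (1 + (a + r) * Real.log T) ^ 4 := by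
    have h6 : (|a| + |x|) * Real.log T ≤ (a + r) * Real.log T :=
      mul_le_mul_of_nonneg_right hax hL0.le
    exact pow_le_pow_left₀ (by positivity) (by linarith) 4
  exact mul_le_mul_of_nonneg_left h5 (by positivity)

end Pool.Agent.H728.HD
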